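import Pool.Agent.Q82.MD.Stm

/-!
# The homogeneous S-lemma, and the exact form (jobs MD-2 and MD-5 of helper82)
-/

set_option autoImplicit false

namespace Pool.Agent.Q176.MD

open Set Filter Topology
open Pool.Agent.W779.Morrey Pool.Agent.Q82.MD

/-- the two-point inequality behind the S-lemma -/
theorem two_point {X : Type*} [NormedAddCommGroup X] [NormedSpace ℝ X]
    (q δ : X →L[ℝ] X →L[ℝ] ℝ) (hq : ∀ a b, q a b = q b a) (hδ : ∀ a b, δ a b = δ b a)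
    (h0 : ∀ x, δ x x = 0 → 0 ≤ q x x) (x y : X) (hx : 0 < δ x x) (hy : δ y y < 0) :
    0 ≤ -δ y y * q x x + δ x x * q y y := by
  obtain ⟨a, ha⟩ : ∃ a, a = δ x x := ⟨_, rfl⟩
  obtain ⟨b, hb⟩ : ∃ b, b = δ x y := ⟨_, rfl⟩
  obtain ⟨d, hd⟩ : ∃ d, d = -δ y y := ⟨_, rfl⟩
  have ha0 : 0 < a := by rw [ha]; exact hx
  have hd0 : 0 < d := by rw [hd]; linarith
  obtain ⟨r, hr⟩ : ∃ r, r = Real.sqrt (b ^ 2 + a * d) := ⟨_, rfl⟩
  have hr2 : r ^ 2 = b ^ 2 + a * d := by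
    rw [hr]; exact Real.sq_sqrt (by positivity)
  have hr0 : 0 ≤ r := by rw [hr]; exact Real.sqrt_nonneg _
  have had : 0 < a * d := mul_pos ha0 hd0
  have hbr : |b| < r := by
    apply lt_of_pow_lt_pow_left₀ 2 hr0
    rw [sq_abs, hr2]; linarith
  have hb1 : 0 < r + b := by linarith [neg_abs_le b]
  have hb2 : 0 < r - b := by linarith [le_abs_self b]
  have key : ∀ s : ℝ, a + 2 * s * b - d * s ^ 2 = 0 →
      0 ≤ q x x + 2 * s * q x y + s ^ 2 * q y y := by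
    intro s hs
    have e1 : δ (x + s • y) (x + s • y) = a + 2 * s * b - d * s ^ 2 := by
      simp only [map_add, map_smul, ContinuousLinearMap.add_apply, ContinuousLinearMap.smul_apply,
        smul_eq_mul]
      rw [hδ y x, ha, hb, hd]; ring
    have e2 : q (x + s • y) (x + s • y) = q x x + 2 * s * q x y + s ^ 2 * q y y := by
      simp only [map_add, map_smul, ContinuousLinearMap.add_apply, ContinuousLinearMap.smul_apply,
        smul_eq_mul]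
      rw [hq y x]; ring
    rw [← e2]
    exact h0 _ (by rw [e1]; exact hs)
  have k1 := key ((b + r) / d) (by field_simp; nlinarith)
  have k2 := key ((b - r) / d) (by field_simp; nlinarith)
  have m1 : 0 ≤ (r - b) * (q x x + 2 * ((b + r) / d) * q x y + ((b + r) / d) ^ 2 * q y y) :=
    mul_nonneg hb2.le k1
  have m2 : 0 ≤ (r + b) * (q x x + 2 * ((b - r) / d) * q x y + ((b - r) / d) ^ 2 * q y y) :=
    mul_nonneg hb1.le k2
  have e3 : (r - b) * (q x x + 2 * ((b + r) / d) * q x y + ((b + r) / d) ^ 2 * q y y) +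
      (r + b) * (q x x + 2 * ((b - r) / d) * q x y + ((b - r) / d) ^ 2 * q y y) =
      2 * r / d * (d * q x x + (r ^ 2 - b ^ 2) / d * q y y) := by
    field_simp; ring
  have e4 : (r ^ 2 - b ^ 2) / d = a := by
    rw [hr2]; field_simp; ring
  rw [e4] at e3
  have hr1 : 0 < r := lt_of_le_of_lt (abs_nonneg b) hbr
  have h5 : 0 ≤ 2 * r / d * (d * q x x + a * q y y) := by rw [← e3]; linarith
  have h6 : 0 < 2 * r / d := by positivity
  have h7 := nonneg_of_mul_nonneg_right h5 h6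
  rw [← hd, ← ha]; exact h7

theorem slem : S_SLEM := by
  intro X _ _ q δ hq hδ hp hn h0
  obtain ⟨x₀, hx₀⟩ := hp
  obtain ⟨y₀, hy₀⟩ := hn
  have hbd : ∀ x y, 0 < δ x x → δ y y < 0 → -q x x / δ x x ≤ q y y / -δ y y := by
    intro x y hx hy
    have h := two_point q δ hq hδ h0 x y hx hy
    rw [div_le_div_iff₀ hx (by linarith)]
    nlinarith
  refine ⟨sSup {t | ∃ x, 0 < δ x x ∧ t = -q x x / δ x x}, fun x => ?_⟩
  have hne : {t | ∃ x, 0 < δ x x ∧ t = -q x x / δ x x}.Nonempty := ⟨_, x₀, hx₀, rfl⟩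
  have hba : BddAbove {t | ∃ x, 0 < δ x x ∧ t = -q x x / δ x x} :=
    ⟨q y₀ y₀ / -δ y₀ y₀, by rintro t ⟨x, hx, rfl⟩; exact hbd x y₀ hx hy₀⟩
  rcases lt_trichotomy (δ x x) 0 with hx | hx | hx
  · have h : sSup {t | ∃ x, 0 < δ x x ∧ t = -q x x / δ x x} ≤ q x x / -δ x x := by
      apply csSup_le hne
      rintro t ⟨z, hz, rfl⟩; exact hbd z x hz hx
    rw [le_div_iff₀ (by linarith)] at h
    linarith
  · rw [hx]; simpa using h0 x hx
  · have h : -q x x / δ x x ≤ sSup {t | ∃ x, 0 < δ x x ∧ t = -q x x / δ x x} :=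
      le_csSup hba ⟨x, hx, rfl⟩
    rw [div_le_iff₀ hx] at h
    linarith

theorem form (hs : S_SEL) (hp : S_PRIM) : S_FORM := by
  intro X _ _ _ G a b η hG hsym hpos hneg hη hnull
  obtain ⟨a0, ha0⟩ : ∃ a0 : X →L[ℝ] ℝ, ∀ x, a0 x = a x 0 :=
    ⟨(ContinuousLinearMap.proj 0).comp a, fun x => rfl⟩
  obtain ⟨a1, ha1⟩ : ∃ a1 : X →L[ℝ] ℝ, ∀ x, a1 x = a x 1 :=
    ⟨(ContinuousLinearMap.proj 1).comp a, fun x => rfl⟩
  obtain ⟨b0, hb0⟩ : ∃ b0 : X →L[ℝ] ℝ, ∀ x, b0 x = b x 0 :=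
    ⟨(ContinuousLinearMap.proj 0).comp b, fun x => rfl⟩
  obtain ⟨b1, hb1⟩ : ∃ b1 : X →L[ℝ] ℝ, ∀ x, b1 x = b x 1 :=
    ⟨(ContinuousLinearMap.proj 1).comp b, fun x => rfl⟩
  obtain ⟨δ, hδ⟩ : ∃ δ : X →L[ℝ] X →L[ℝ] ℝ, ∀ x x', δ x x' =
      (wd (a x) (b x') + wd (a x') (b x)) / 2 := by
    refine ⟨(1 / 2 : ℝ) • (a0.smulRight b1 - a1.smulRight b0 + b1.smulRight a0 - b0.smulRight a1),
      fun x x' => ?_⟩
    simp only [ContinuousLinearMap.smul_apply, ContinuousLinearMap.add_apply,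
      ContinuousLinearMap.sub_apply, ContinuousLinearMap.smulRight_apply, smul_eq_mul, ha0, ha1,
      hb0, hb1, wd]
    ring
  have hδd : ∀ x, δ x x = wd (a x) (b x) := fun x => by rw [hδ]; ring
  obtain ⟨c, hc, hc2⟩ := hs X G δ η hG hsym (fun x x' => by rw [hδ, hδ]; ring)
    (by obtain ⟨x, hx⟩ := hpos; exact ⟨x, by rw [hδd]; exact hx⟩)
    (by obtain ⟨x, hx⟩ := hneg; exact ⟨x, by rw [hδd]; exact hx⟩) hη
    (fun y x hx => hnull y x (by rw [← hδd]; exact hx))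
  obtain ⟨θ, hθ, hθ2⟩ := hp c hc
  refine ⟨θ, hθ, fun y x => ?_⟩
  rw [hθ2, ← hδd]
  exact hc2 y x

end Pool.Agent.Q176.MD
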